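import Pool.Agent.MP_5d33c3_co.H12.Main

namespace Pool.Agent.Results.MP_5d33c3_co.Packing

open Pool.Agent.MP_5d33c3_co

/-- Every finite graph of maximum degree at most three has a `(1,1,2,2,2,2)`-packing
edge-colouring: two distinct edges of colour `i` are at distance at least `s i + 1` in the line
graph. -/
theorem result (V : Type) [Fintype V] (G : SimpleGraph V) [DecidableRel G.Adj]
    (h : G.maxDegree ≤ 3) : ∃ c : G.edgeSet → Fin 6, ∀ e f : G.edgeSet, e ≠ f → c e = c f →
      (![1, 1, 2, 2, 2, 2] : Fin 6 → ℕ∞) (c e) + 1 ≤ G.lineGraph.edist e f := by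
  have h3 : H12.Deg3 G := by
    intro a b c d e hb hc hd he
    by_contra hne
    push Not at hne
    have h1 := (Set.three_lt_ncard_iff (s := G.neighborSet a)).2 ⟨b, c, d, e, hb, hc, hd, he, hne⟩
    rw [← SimpleGraph.coe_neighborFinset, Set.ncard_coe_finset,
      SimpleGraph.card_neighborFinset_eq_degree] at h1
    have := G.degree_le_maxDegree a
    omega
  obtain ⟨c, pv⟩ := (H12.good G h3).1
  let c' : Sym2 V → Fin 6 := Sym2.lift ⟨fun a b => ⟨c a b, pv.lt a b⟩, fun a b => Fin.ext (pv.symm a b)⟩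
  have key : ∀ {e f : G.edgeSet}, G.lineGraph.Adj e f →
      ∃ a b y, e.1 = s(a, b) ∧ f.1 = s(a, y) ∧ G.Adj a b ∧ G.Adj a y ∧ b ≠ y := by
    intro e f hef
    obtain ⟨hne, a, ha, ha'⟩ := SimpleGraph.lineGraph_adj_iff_exists.1 hef
    obtain ⟨b, hb⟩ := Sym2.mem_iff_exists.1 ha
    obtain ⟨y, hy⟩ := Sym2.mem_iff_exists.1 ha'
    refine ⟨a, b, y, hb, hy, by simpa [hb] using e.2, by simpa [hy] using f.2, ?_⟩
    rintro rfl
    exact hne (Subtype.ext (hb.trans hy.symm))
  refine ⟨fun e => c' e.1, fun e f hne hc => ?_⟩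
  have n1 : ¬ G.lineGraph.Adj e f := fun hef => by
    obtain ⟨a, b, y, h1, h2, h4, h5, h6⟩ := key hef
    simp only [h1, h2] at hc
    exact pv.v1 a b y h4 h5 h6 (congrArg Fin.val hc)
  have n2 : 2 ≤ (c' e.1).val → ∀ g, G.lineGraph.Adj e g → ¬ G.lineGraph.Adj g f := by
    intro h2 g heg hgf
    obtain ⟨a, b, x, h1, h4, h5, h6, h7⟩ := key heg
    obtain ⟨x', a', y, h8, h9, h10, h11, h12⟩ := key hgf
    have hc' : c a b = c x' y := by
      simp only [h1, h9] at hc
      exact congrArg Fin.val hc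
    rcases Sym2.eq_iff.1 (h4.symm.trans h8) with ⟨rfl, rfl⟩ | ⟨rfl, rfl⟩
    · exact n1 (SimpleGraph.lineGraph_adj_iff_exists.2 ⟨hne, a, by simp [h1], by simp [h9]⟩)
    · rw [h1] at h2
      exact pv.v2 a b x y h5 h6 h11 h7 h12.symm h2 hc'
  rw [SimpleGraph.edist_eq_sInf]
  refine le_sInf ?_
  rintro _ ⟨w, rfl⟩
  have l2 : 2 ≤ w.length := by
    cases w with
    | nil => exact absurd rfl hne
    | cons h w =>
      cases w with
      | nil => exact absurd h n1
      | cons _ _ => simp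
  have l3 : 2 ≤ (c' e.1).val → 3 ≤ w.length := fun h2 => by
    cases w with
    | nil => simp at l2
    | cons h w =>
      cases w with
      | nil => simp at l2
      | cons h' w =>
        cases w with
        | nil => exact absurd h' (n2 h2 _ h)
        | cons _ _ => simp
  show (![1, 1, 2, 2, 2, 2] : Fin 6 → ℕ∞) (c' e.1) + 1 ≤ w.length
  generalize c' e.1 = i at l3
  have m2 : (1 : ℕ∞) + 1 ≤ w.length := by exact_mod_cast l2
  have m3 : 2 ≤ i.val → (2 : ℕ∞) + 1 ≤ w.length := fun h => by exact_mod_cast l3 h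
  fin_cases i
  exacts [m2, m2, m3 le_rfl, m3 (by simp), m3 (by simp), m3 (by simp)]

end Pool.Agent.Results.MP_5d33c3_co.Packing
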